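import Pool.Agent.H74.TF.Stm2

/-!
# Project TF, part NV0: every filling gives a homomorphism
-/

set_option autoImplicit false

namespace Pool.Agent.H30.TF.Nv

open Finset Equiv MvPolynomial Pool.Agent.H74.TF

/-! ## Elementary symmetric polynomials of a disjoint union -/

theorem gen_coeff {σ A R : Type} [Fintype σ] [CommRing A] [CommRing R] [Algebra R A]
    (f : σ → A) (j : ℕ) :
    (∏ x, (1 + Polynomial.C (f x) * Polynomial.X)).coeff j = aeval f (esymm σ R j) := by
  classical
  rw [Finset.prod_one_add, Polynomial.finsetSum_coeff]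
  have h1 : ∀ t : Finset σ, (∏ i ∈ t, (Polynomial.C (f i) * Polynomial.X : Polynomial A)).coeff j =
      if t.card = j then ∏ i ∈ t, f i else 0 := by
    intro t
    rw [Finset.prod_mul_distrib, Finset.prod_const, ← map_prod, Polynomial.coeff_C_mul,
      Polynomial.coeff_X_pow]
    by_cases h : t.card = j
    · rw [if_pos h, if_pos h.symm, mul_one]
    · rw [if_neg h, if_neg (fun h' => h h'.symm), mul_zero]
  rw [Finset.sum_congr rfl fun t _ => h1 t, ← Finset.sum_filter, esymm, map_sum]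
  simp_rw [map_prod, aeval_X]
  refine Finset.sum_congr ?_ fun _ _ => rfl
  ext t
  simp [Finset.mem_powersetCard]

theorem aeval_esymm_sum {α β A R : Type} [Fintype α] [Fintype β] [CommRing A] [CommRing R]
    [Algebra R A] (f : α ⊕ β → A) (n : ℕ) :
    aeval f (esymm (α ⊕ β) R n) = ∑ p ∈ antidiagonal n,
      aeval (fun x => f (Sum.inl x)) (esymm α R p.1) *
        aeval (fun x => f (Sum.inr x)) (esymm β R p.2) := by
  rw [← gen_coeff, Fintype.prod_sum_type, Polynomial.coeff_mul]
  refine Finset.sum_congr rfl fun p _ => ?_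
  rw [gen_coeff (R := R), gen_coeff (R := R)]

theorem rename_aeval {σ τ : Type} (f : σ → τ) (p : MvPolynomial σ ℚ) :
    rename f p = aeval (fun x => (X (f x) : MvPolynomial τ ℚ)) p := by
  induction p using MvPolynomial.induction_on with
  | C r => simp
  | add p q hp hq => rw [map_add, map_add, hp, hq]
  | mul_X p x hp => rw [map_mul, map_mul, hp, rename_X, aeval_X]

/-! ## Class sums -/

theorem csum_comm {R α U : Type} [CommRing R] [Fintype α] [DecidableEq α] [AddCommGroup U]
    [Module R U] (ρ : Representation R (Perm α) U) (j : ℕ) (g : Perm α) :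
    csum ρ j * ρ g = ρ g * csum ρ j := by
  unfold csum
  rw [Finset.sum_mul, Finset.mul_sum]
  refine Finset.sum_equiv (MulAut.conj g⁻¹).toEquiv ?_ ?_
  · intro h
    have hc : cyc (g⁻¹ * h * g) = cyc h := by
      unfold cyc
      have : h.partition = (g⁻¹ * h * g).partition := by
        rw [← Equiv.Perm.partition_eq_of_isConj, isConj_iff]
        exact ⟨g⁻¹, by rw [inv_inv]⟩
      rw [this]
    simp only [mem_filter, mem_univ, true_and, MulEquiv.toEquiv_eq_coe, EquivLike.coe_coe,
      MulAut.conj_apply, inv_inv, hc]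
  · intro h _
    simp only [MulEquiv.toEquiv_eq_coe, EquivLike.coe_coe, MulAut.conj_apply, inv_inv]
    rw [← map_mul, ← map_mul]
    congr 1
    group

theorem rk_inj {m k : ℕ} : Function.Injective (rk : Pt m k → ℕ) := by
  rintro (⟨i, b⟩ | r) (⟨i', b'⟩ | r') h
  · simp only [rk] at h
    have h1 : b.toNat ≤ 1 := Bool.toNat_le b
    have h2 : b'.toNat ≤ 1 := Bool.toNat_le b'
    have h3 : (i : ℕ) = i' := by omega
    have h4 : b.toNat = b'.toNat := by omega
    have h5 : b = b' := by
      cases b <;> cases b' <;> simp_all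
    rw [Fin.ext h3, h5]
  · simp only [rk] at h
    have h1 : b.toNat ≤ 1 := Bool.toNat_le b
    have := i.2
    omega
  · simp only [rk] at h
    have h1 : b'.toNat ≤ 1 := Bool.toNat_le b'
    have := i'.2
    omega
  · simp only [rk] at h
    have : r = r' := Fin.ext (by omega)
    rw [this]

theorem rk0_inj {m : ℕ} : Function.Injective (rk0 : Fin m × Bool → ℕ) := by
  rintro ⟨i, b⟩ ⟨i', b'⟩ h
  simp only [rk0] at h
  have h1 : b.toNat ≤ 1 := Bool.toNat_le b
  have h2 : b'.toNat ≤ 1 := Bool.toNat_le b'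
  have h3 : (i : ℕ) = i' := by omega
  have h4 : b.toNat = b'.toNat := by omega
  have h5 : b = b' := by
    cases b <;> cases b' <;> simp_all
  rw [Fin.ext h3, h5]

/-- The restriction to the permutations of the paired points. -/
noncomputable def rin (m k : ℕ) :
    Representation ℚ (Perm (Fin m × Bool)) (MvPolynomial (Pt m k) ℚ) :=
  (pol (Pt m k)).comp ((Equiv.Perm.sumCongrHom (Fin m × Bool) (Fin k)).comp
    (MonoidHom.inl (Perm (Fin m × Bool)) (Perm (Fin k))))

theorem rin_apply {m k : ℕ} (a : Perm (Fin m × Bool)) : rin m k a = pol (Pt m k) (iot a 1) := rfl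

theorem JM_rin {m k : ℕ} (x : Fin m × Bool) :
    JM (rin m k) rk0 x = JM (pol (Pt m k)) rk (Sum.inl x) := by
  classical
  unfold JM
  rw [Finset.sum_filter, Finset.sum_filter, Fintype.sum_sum_type]
  have h2 : ∑ r : Fin k, (if rk (Sum.inr r : Pt m k) < rk (Sum.inl x : Pt m k) then
      pol (Pt m k) (swap (Sum.inr r) (Sum.inl x)) else 0) = 0 := by
    refine Finset.sum_eq_zero fun r _ => ?_
    rw [if_neg]
    obtain ⟨i, b⟩ := x
    simp only [rk]
    have h1 : b.toNat ≤ 1 := Bool.toNat_le b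
    have := i.2
    omega
  rw [h2, add_zero]
  refine Finset.sum_congr rfl fun y _ => ?_
  have h3 : rk (Sum.inl y : Pt m k) = rk0 y := rfl
  have h4 : rk (Sum.inl x : Pt m k) = rk0 x := rfl
  rw [h3, h4, rin_apply]
  have h5 : (iot (swap y x) 1 : Perm (Pt m k)) = swap (Sum.inl y) (Sum.inl x) :=
    Equiv.Perm.sumCongr_swap_one y x
  rw [h5]

/-! ## The action on the span of the row product -/

section

variable {m k : ℕ} (T : Fil m k)

/-- The span of the permuted row products. -/
noncomputable def UU : Submodule ℚ (MvPolynomial (Pt m k) ℚ) :=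
  Submodule.span ℚ (Set.range fun g => pol (Pt m k) g (Dlt T.prow T.pcol))

theorem UU_pol (g : Perm (Pt m k)) (u : MvPolynomial (Pt m k) ℚ) (hu : u ∈ UU T) :
    pol (Pt m k) g u ∈ UU T := by
  unfold UU at hu ⊢
  induction hu using Submodule.span_induction with
  | mem v hv =>
    obtain ⟨h, rfl⟩ := hv
    apply Submodule.subset_span
    refine ⟨g * h, ?_⟩
    simp only [map_mul, Module.End.mul_apply]
  | zero => rw [map_zero]; exact Submodule.zero_mem _
  | add v w _ _ hv hw => rw [map_add]; exact Submodule.add_mem _ hv hw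
  | smul c v _ hv => rw [map_smul]; exact Submodule.smul_mem _ _ hv

theorem UU_JM (x : Pt m k) (u : MvPolynomial (Pt m k) ℚ) (hu : u ∈ UU T) :
    JM (pol (Pt m k)) rk x u ∈ UU T := by
  unfold JM
  rw [LinearMap.sum_apply]
  exact Submodule.sum_mem _ fun y _ => UU_pol T _ u hu

theorem UU_ev (ev : MvPolynomial (Pt m k) ℚ →ₐ[ℚ] Module.End ℚ (MvPolynomial (Pt m k) ℚ))
    (hev : ∀ x, ev (X x) = JM (pol (Pt m k)) rk x) (f : MvPolynomial (Pt m k) ℚ) :
    ∀ u ∈ UU T, ev f u ∈ UU T := by
  induction f using MvPolynomial.induction_on with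
  | C r =>
    intro u hu
    have : ev (C r) = algebraMap ℚ _ r := by
      rw [← MvPolynomial.algebraMap_eq, AlgHom.commutes]
    rw [this, Module.algebraMap_end_apply]
    exact Submodule.smul_mem _ _ hu
  | add p q hp hq =>
    intro u hu
    rw [map_add, LinearMap.add_apply]
    exact Submodule.add_mem _ (hp u hu) (hq u hu)
  | mul_X p x hp =>
    intro u hu
    rw [map_mul, Module.End.mul_apply]
    apply hp
    rw [hev]
    exact UU_JM T x u hu

/-- The scalar by which the class sums act. -/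
noncomputable def lamv (j : ℕ) : ℚ :=
  eval (fun x => ((T.pcol x : ℤ) : ℚ) - ((T.prow x : ℤ) : ℚ)) (esymm (Pt m k) ℚ j)

theorem UU_csum (hLAM : C_LAM) (j : ℕ) (u : MvPolynomial (Pt m k) ℚ) (hu : u ∈ UU T) :
    csum (pol (Pt m k)) j u = lamv T j • u := by
  unfold UU at hu
  induction hu using Submodule.span_induction with
  | mem v hv =>
    obtain ⟨g, rfl⟩ := hv
    have h := congrArg (fun L => L (Dlt T.prow T.pcol)) (csum_comm (pol (Pt m k)) j g)
    simp only [Module.End.mul_apply] at h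
    rw [h, hLAM m k T j, map_smul]
    rfl
  | zero => rw [map_zero, smul_zero]
  | add v w _ _ hv hw => rw [map_add, hv, hw, smul_add]
  | smul c v _ hv => rw [map_smul, hv, smul_comm]

/-! ## The leading coefficient -/

theorem ev_C' {V : Type} [AddCommGroup V] [Module ℚ V] {σ : Type}
    (ev : MvPolynomial σ ℚ →ₐ[ℚ] Module.End ℚ V) (r : ℚ) (v : V) : ev (C r) v = r • v := by
  have : ev (C r) = algebraMap ℚ _ r := by
    rw [← MvPolynomial.algebraMap_eq, AlgHom.commutes]
  rw [this, Module.algebraMap_end_apply]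

variable (ev : MvPolynomial (Pt m k) ℚ →ₐ[ℚ] Module.End ℚ (MvPolynomial (Pt m k) ℚ))
  (hev : ∀ x, ev (X x) = JM (pol (Pt m k)) rk x)
  (ev0 : MvPolynomial (Fin m) ℚ →ₐ[ℚ] Module.End ℚ (MvPolynomial (Fin m × Bool) ℚ))
  (hev0 : ∀ i, ev0 (X i) = JM (pol (Fin m × Bool)) rk0 (i, false))
  (Ψ : MvPolynomial (Pt m k) ℚ →ₗ[ℚ] MvPolynomial (Fin m × Bool) ℚ)
  (hΨ : ∀ a f, Ψ (pol (Pt m k) (iot a 1) f) = pol (Fin m × Bool) a (Ψ f))

include hΨ in
theorem Psi_JM (x : Fin m × Bool) (u : MvPolynomial (Pt m k) ℚ) :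
    Ψ (JM (pol (Pt m k)) rk (Sum.inl x) u) = JM (pol (Fin m × Bool)) rk0 x (Ψ u) := by
  rw [← JM_rin]
  unfold JM
  rw [LinearMap.sum_apply, LinearMap.sum_apply, map_sum]
  refine Finset.sum_congr rfl fun y _ => ?_
  rw [rin_apply, hΨ]

include hev hev0 hΨ in
theorem Psi_inl (g : MvPolynomial (Fin m) ℚ) : ∀ u : MvPolynomial (Pt m k) ℚ,
    Ψ (ev (rename (fun i => (Sum.inl (i, false) : Pt m k)) g) u) = ev0 g (Ψ u) := by
  induction g using MvPolynomial.induction_on with
  | C r =>
    intro u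
    rw [rename_C, ev_C', ev_C', map_smul]
  | add p q hp hq =>
    intro u
    rw [map_add, map_add, map_add, LinearMap.add_apply, LinearMap.add_apply, map_add, hp, hq]
  | mul_X p i hp =>
    intro u
    rw [map_mul, map_mul, map_mul, Module.End.mul_apply, Module.End.mul_apply, hp, rename_X, hev,
      Psi_JM Ψ hΨ, hev0]

include hΨ in
theorem Psi_csum (j : ℕ) (u : MvPolynomial (Pt m k) ℚ) :
    Ψ (csum (rin m k) j u) = csum (pol (Fin m × Bool)) j (Ψ u) := by
  unfold csum
  rw [LinearMap.sum_apply, LinearMap.sum_apply, map_sum]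
  refine Finset.sum_congr rfl fun a _ => ?_
  rw [rin_apply, hΨ]

include hev hΨ in
theorem Psi_einl (hJUC : C_JUC) (j : ℕ) (u : MvPolynomial (Pt m k) ℚ) :
    Ψ (ev (rename Sum.inl (esymm (Fin m × Bool) ℚ j)) u) =
      csum (pol (Fin m × Bool)) j (Ψ u) := by
  rw [← Psi_csum Ψ hΨ]
  have h := hJUC ℚ (Fin m × Bool) _ (rin m k) rk0 (ev.comp (rename Sum.inl)) rk0_inj
    (fun x => by rw [JM_rin, AlgHom.comp_apply, rename_X, hev]) j
  rw [h, AlgHom.comp_apply]

/-- The inner scalar. -/
noncomputable def inv1 (j : ℕ) : ℚ :=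
  eval (fun x => ((T.x x.1 + x.2.toNat : ℤ) : ℚ)) (esymm (Fin m × Bool) ℚ j)

/-- The value at the single points. -/
noncomputable def yv (j : ℕ) : ℚ := eval (fun s => ((T.y s : ℤ) : ℚ)) (esymm (Fin k) ℚ j)

theorem lamv_eq (j : ℕ) :
    lamv T j = ∑ p ∈ antidiagonal j, inv1 T p.1 * yv T p.2 := by
  unfold lamv inv1 yv
  have h := aeval_esymm_sum (α := Fin m × Bool) (β := Fin k) (R := ℚ)
    (fun x : Pt m k => ((T.pcol x : ℤ) : ℚ) - ((T.prow x : ℤ) : ℚ)) j
  simp only [aeval_eq_eval] at h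
  rw [h]
  refine Finset.sum_congr rfl fun p _ => ?_
  congr 3
  · funext x
    simp only [Fil.pcol, Fil.prow, Fil.x]
    push_cast
    ring
  · funext s
    simp only [Fil.pcol, Fil.prow, Fil.y]
    push_cast
    ring

theorem esymm_Pt (j : ℕ) : esymm (Pt m k) ℚ j = ∑ p ∈ antidiagonal j,
    rename Sum.inl (esymm (Fin m × Bool) ℚ p.1) * rename Sum.inr (esymm (Fin k) ℚ p.2) := by
  have h := aeval_esymm_sum (α := Fin m × Bool) (β := Fin k) (R := ℚ)
    (X : Pt m k → MvPolynomial (Pt m k) ℚ) j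
  rw [aeval_X_left, AlgHom.id_apply] at h
  rw [h]
  refine Finset.sum_congr rfl fun p _ => ?_
  rw [rename_aeval, rename_aeval]

include hev hΨ in
theorem Psi_inr (hJUC : C_JUC) (hLAM : C_LAM)
    (hPH2 : ∀ j, csum (pol (Fin m × Bool)) j T.w0 = inv1 T j • T.w0) (j : ℕ) :
    ∀ u ∈ UU T, ∀ l : ℚ, Ψ u = l • T.w0 →
      Ψ (ev (rename Sum.inr (esymm (Fin k) ℚ j)) u) = (l * yv T j) • T.w0 := by
  classical
  induction j using Nat.strong_induction_on with
  | _ j ih =>
    intro u hu l hl
    have h1 : Ψ (csum (pol (Pt m k)) j u) = (l * lamv T j) • T.w0 := by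
      rw [UU_csum T hLAM j u hu, map_smul, hl, smul_smul, mul_comm]
    have h2 : Ψ (csum (pol (Pt m k)) j u) = ∑ p ∈ antidiagonal j,
        csum (pol (Fin m × Bool)) p.1 (Ψ (ev (rename Sum.inr (esymm (Fin k) ℚ p.2)) u)) := by
      rw [hJUC ℚ (Pt m k) _ (pol (Pt m k)) rk ev rk_inj hev j, esymm_Pt, map_sum,
        LinearMap.sum_apply, map_sum]
      refine Finset.sum_congr rfl fun p _ => ?_
      rw [map_mul, Module.End.mul_apply, Psi_einl ev hev Ψ hΨ hJUC]
    have hmem : (0, j) ∈ antidiagonal j := by simp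
    rw [← Finset.add_sum_erase _ _ hmem] at h2
    have h3 : csum (pol (Fin m × Bool)) 0
        (Ψ (ev (rename Sum.inr (esymm (Fin k) ℚ j)) u)) =
        Ψ (ev (rename Sum.inr (esymm (Fin k) ℚ j)) u) := by
      rw [← Psi_einl ev hev Ψ hΨ hJUC, esymm_zero, map_one, map_one, Module.End.one_apply]
    have h4 : ∑ p ∈ (antidiagonal j).erase (0, j),
        csum (pol (Fin m × Bool)) p.1 (Ψ (ev (rename Sum.inr (esymm (Fin k) ℚ p.2)) u)) =
        ∑ p ∈ (antidiagonal j).erase (0, j), (l * (inv1 T p.1 * yv T p.2)) • T.w0 := by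
      refine Finset.sum_congr rfl fun p hp => ?_
      rw [mem_erase, HasAntidiagonal.mem_antidiagonal] at hp
      have hlt : p.2 < j := by
        rcases Nat.lt_or_ge p.2 j with h | h
        · exact h
        · exfalso
          apply hp.1
          have h5 : p.2 = j := by omega
          have h6 : p.1 = 0 := by omega
          exact Prod.ext h6 h5
      rw [ih p.2 hlt u hu l hl, map_smul, hPH2, smul_smul]
      congr 1
      ring
    have h5 : lamv T j = yv T j + ∑ p ∈ (antidiagonal j).erase (0, j), inv1 T p.1 * yv T p.2 := by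
      rw [lamv_eq, ← Finset.add_sum_erase _ _ hmem]
      congr 1
      simp only
      rw [inv1, esymm_zero, map_one, one_mul]
    simp only at h2
    rw [h3, h4, h1, ← Finset.sum_smul, ← Finset.mul_sum, h5, mul_add, add_smul] at h2
    exact (add_right_cancel h2).symm

/-! ## Transport from functions on the group -/

/-- The action on the row product. -/
noncomputable def act : (Perm (Pt m k) → ℤ) →ₗ[ℤ] MvPolynomial (Pt m k) ℚ where
  toFun ψ := ∑ g, ψ g • pol (Pt m k) g (Dlt T.prow T.pcol)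
  map_add' ψ ψ' := by
    simp only [Pi.add_apply, add_smul, Finset.sum_add_distrib]
  map_smul' c ψ := by
    simp only [Pi.smul_apply, smul_eq_mul, mul_smul, Finset.smul_sum, RingHom.id_apply]

theorem act_LL (g : Perm (Pt m k)) (ψ : Perm (Pt m k) → ℤ) :
    act T (LL ℤ m k g ψ) = pol (Pt m k) g (act T ψ) := by
  show ∑ x, ψ (g⁻¹ * x) • pol (Pt m k) x (Dlt T.prow T.pcol) =
    pol (Pt m k) g (∑ x, ψ x • pol (Pt m k) x (Dlt T.prow T.pcol))
  rw [map_sum, ← Equiv.sum_comp (Equiv.mulLeft g)]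
  refine Finset.sum_congr rfl fun x _ => ?_
  rw [Equiv.coe_mulLeft, inv_mul_cancel_left, map_zsmul, map_mul, Module.End.mul_apply]

theorem act_JJ (x : Pt m k) (ψ : Perm (Pt m k) → ℤ) :
    act T (JJ ℤ m k x ψ) = JM (pol (Pt m k)) rk x (act T ψ) := by
  unfold JJ JM
  rw [LinearMap.sum_apply, LinearMap.sum_apply, map_sum]
  exact Finset.sum_congr rfl fun y _ => act_LL T _ ψ

include hev in
theorem act_evs
    (evs : MvPolynomial (Fin m ⊕ Fin k) ℤ →ₐ[ℤ] Module.End ℤ (Perm (Pt m k) → ℤ))
    (hevs : IsEv evs) (f : MvPolynomial (Fin m ⊕ Fin k) ℤ) : ∀ ψ : Perm (Pt m k) → ℤ,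
    act T (evs f ψ) = ev (rename ctr (map (Int.castRingHom ℚ) f)) (act T ψ) := by
  induction f using MvPolynomial.induction_on with
  | C r =>
    intro ψ
    have : evs (C r) = algebraMap ℤ _ r := by
      rw [← MvPolynomial.algebraMap_eq, AlgHom.commutes]
    rw [this, Module.algebraMap_end_apply, map_smul, map_C, rename_C, ev_C']
    rw [eq_intCast, Int.cast_smul_eq_zsmul]
  | add p q hp hq =>
    intro ψ
    rw [map_add, map_add, map_add, map_add, LinearMap.add_apply, LinearMap.add_apply, map_add,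
      hp, hq]
  | mul_X p c hp =>
    intro ψ
    rw [map_mul, map_mul, map_mul, map_mul, Module.End.mul_apply, Module.End.mul_apply, hp,
      map_X, rename_X, hev, hevs c, act_JJ]

end

theorem t_NV0 (hEV : C_EV) (hCOM : C_COM) (hJUC : C_JUC) (hESY : C_ESY) (hPH : C_PH)
    (hLAM : C_LAM) (hPSI : C_PSI) (hPOS : C_POS) : C_NV0 := by
  classical
  intro m k T evs hevs f hf h0
  obtain ⟨Ψ, hΨ, c, hc, hΨw⟩ := hPSI m k T
  obtain ⟨ev, hev⟩ := hEV ℚ (Module.End ℚ (MvPolynomial (Pt m k) ℚ)) (Pt m k)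
    (JM (pol (Pt m k)) rk) (hCOM ℚ (Pt m k) _ (pol (Pt m k)) rk rk_inj).1
  obtain ⟨ev0, hev0⟩ := hEV ℚ (Module.End ℚ (MvPolynomial (Fin m × Bool) ℚ)) (Fin m)
    (fun i => JM (pol (Fin m × Bool)) rk0 (i, false))
    (fun i i' => (hCOM ℚ (Fin m × Bool) _ (pol (Fin m × Bool)) rk0 rk0_inj).1 _ _)
  obtain ⟨hPH1, hPH2⟩ := hPH m k T ev0 hev0
  set w : MvPolynomial (Pt m k) ℚ := act T (v0 ℤ m k) with hw
  have hw1 : w = ∑ g : Perm (Pt m k), v0 ℚ m k g • pol (Pt m k) g (Dlt T.prow T.pcol) := by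
    rw [hw]
    refine Finset.sum_congr rfl fun g _ => ?_
    rw [← Int.cast_smul_eq_zsmul ℚ]
    congr 1
    unfold v0
    push_cast
    rfl
  have hwU : w ∈ UU T := by
    rw [hw1]
    exact Submodule.sum_mem _ fun g _ => Submodule.smul_mem _ _
      (Submodule.subset_span ⟨g, rfl⟩)
  have hfQ : BiSym (map (Int.castRingHom ℚ) f) := by
    intro π π'
    rw [← map_rename, hf π π']
  obtain ⟨q, hq⟩ := ((hESY ℚ m k).1 _).1 hfQ
  set pt : Fin m ⊕ Fin k → ℚ := fun c => ((Sum.elim T.x T.y c : ℤ) : ℚ) with hpt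
  have main : ∀ q : MvPolynomial (Fin m ⊕ Fin k) ℚ, ∀ u ∈ UU T, ∀ l : ℚ, Ψ u = l • T.w0 →
      Ψ (ev (rename ctr (aeval (es ℚ m k) q)) u) =
        (l * eval pt (aeval (es ℚ m k) q)) • T.w0 := by
    intro q
    induction q using MvPolynomial.induction_on with
    | C r =>
      intro u _ l hl
      rw [aeval_C, MvPolynomial.algebraMap_eq, rename_C, ev_C', map_smul, hl, eval_C, smul_smul,
        mul_comm]
    | add p q hp hq =>
      intro u hu l hl
      rw [map_add, map_add, map_add, map_add, LinearMap.add_apply, map_add, hp u hu l hl,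
        hq u hu l hl, ← add_smul, mul_add]
    | mul_X p i hp =>
      intro u hu l hl
      rw [map_mul, map_mul, map_mul, map_mul, Module.End.mul_apply, aeval_X]
      have hmem : ev (rename ctr (es ℚ m k i)) u ∈ UU T := UU_ev T ev hev _ u hu
      have hval : Ψ (ev (rename ctr (es ℚ m k i)) u) = (l * eval pt (es ℚ m k i)) • T.w0 := by
        rcases i with i | r
        · have h1 : rename ctr (es ℚ m k (Sum.inl i)) =
              rename (fun i => (Sum.inl (i, false) : Pt m k)) (esymm (Fin m) ℚ (i + 1)) := by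
            unfold es
            rw [rename_rename]
            rfl
          have h2 : eval pt (es ℚ m k (Sum.inl i)) =
              eval (fun i => ((T.x i : ℤ) : ℚ)) (esymm (Fin m) ℚ (i + 1)) := by
            unfold es
            rw [eval_rename]
            rfl
          rw [h1, h2, Psi_inl ev hev ev0 hev0 Ψ hΨ, hl, map_smul,
            hPH1 _ (esymm_isSymmetric _ _ _), smul_smul]
        · have h1 : rename ctr (es ℚ m k (Sum.inr r)) =
              rename (Sum.inr : Fin k → Pt m k) (esymm (Fin k) ℚ (r + 1)) := by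
            unfold es
            rw [rename_rename]
            rfl
          have h2 : eval pt (es ℚ m k (Sum.inr r)) = yv T (r + 1) := by
            unfold es yv
            rw [eval_rename]
            rfl
          rw [h1, h2, Psi_inr T ev hev Ψ hΨ hJUC hLAM hPH2 (r + 1) u hu l hl]
      rw [hp _ hmem _ hval]
      congr 1
      ring
  have h1 : Ψ (ev (rename ctr (map (Int.castRingHom ℚ) f)) w) = 0 := by
    rw [hw, ← act_evs T ev hev evs hevs, h0, map_zero, map_zero]
  rw [← hq, main q w hwU c (by rw [hw1]; exact hΨw), hq] at h1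
  have hw0 : T.w0 ≠ 0 := hPOS m k T
  have h2 : eval pt (map (Int.castRingHom ℚ) f) = 0 := by
    rcases smul_eq_zero.1 h1 with h | h
    · rcases mul_eq_zero.1 h with h' | h'
      · exact absurd h' hc
      · exact h'
    · exact absurd h hw0
  have h3 : eval pt (map (Int.castRingHom ℚ) f) =
      ((aeval (Sum.elim T.x T.y) f : ℤ) : ℚ) := by
    rw [hpt, eval_map]
    have := MvPolynomial.eval₂_comp_left (Int.castRingHom ℚ) (RingHom.id ℤ) (Sum.elim T.x T.y) f
    simp only [RingHomCompTriple.comp_eq] at this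
    rw [show ((aeval (Sum.elim T.x T.y) f : ℤ) : ℚ) = (Int.castRingHom ℚ)
      (eval₂ (RingHom.id ℤ) (Sum.elim T.x T.y) f) from rfl, this]
    rfl
  rw [h3] at h2
  exact_mod_cast h2

end Pool.Agent.H30.TF.Nv
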