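import Pool.Agent.H74.TF.Stm2

/-!
# Project TF, part PSI: the leading coefficient with respect to the single points
-/

set_option autoImplicit false

namespace Pool.Agent.H30.TF

open Finset Equiv MvPolynomial Pool.Agent.H74.TF

variable {m k : ℕ}

/-- Polynomials in the paired points. -/
abbrev PP (m : ℕ) := MvPolynomial (Fin m × Bool) ℚ

/-- Separate the variables. -/
noncomputable def theta (m k : ℕ) : MvPolynomial (Pt m k) ℚ →ₐ[ℚ] MvPolynomial (Fin k) (PP m) :=
  aeval (Sum.elim (fun x => C (X x)) (fun s => X s))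

theorem theta_rename (a : Perm (Fin m × Bool)) (b : Perm (Fin k)) (f : MvPolynomial (Pt m k) ℚ) :
    theta m k (rename (iot a b) f) =
      rename b (map ((rename a : PP m →ₐ[ℚ] PP m) : PP m →+* PP m) (theta m k f)) := by
  induction f using MvPolynomial.induction_on with
  | C r =>
    rw [rename_C]
    unfold theta
    rw [aeval_C, MvPolynomial.algebraMap_apply, map_C, rename_C]
    congr 1
    rw [algebraMap_eq]
    simp
  | add p q hp hq => simp only [map_add, hp, hq]
  | mul_X p x hp =>
    simp only [map_mul, hp]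
    congr 1
    unfold theta
    rcases x with x | s
    · simp
    · simp

theorem coeff_prod_aeval {A : Type*} [CommRing A] (Q : Fin k → Polynomial A)
    (d : Fin k →₀ ℕ) :
    coeff d (∏ s, Polynomial.aeval (X s : MvPolynomial (Fin k) A) (Q s)) =
      ∏ s, (Q s).coeff (d s) := by
  classical
  obtain ⟨N, hN⟩ : ∃ N, ∀ s, (Q s).natDegree < N ∧ d s < N := by
    refine ⟨(∑ s, (Q s).natDegree) + (∑ s, d s) + 1, fun s => ⟨?_, ?_⟩⟩
    · have := Finset.single_le_sum (f := fun s => (Q s).natDegree) (fun _ _ => Nat.zero_le _)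
        (Finset.mem_univ s)
      omega
    · have := Finset.single_le_sum (f := fun s => d s) (fun _ _ => Nat.zero_le _)
        (Finset.mem_univ s)
      omega
  have h1 : ∀ s, Polynomial.aeval (X s : MvPolynomial (Fin k) A) (Q s) =
      ∑ j ∈ range N, C ((Q s).coeff j) * X s ^ j := by
    intro s
    rw [Polynomial.aeval_eq_sum_range' (hN s).1]
    refine Finset.sum_congr rfl fun j _ => ?_
    rw [smul_eq_C_mul]
  simp_rw [h1]
  rw [Finset.prod_univ_sum, coeff_sum]
  have h2 : ∀ p : Fin k → ℕ, ∏ s, (C ((Q s).coeff (p s)) * X s ^ (p s) : MvPolynomial (Fin k) A) =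
      monomial (Finsupp.equivFunOnFinite.symm p) (∏ s, (Q s).coeff (p s)) := by
    intro p
    rw [monomial_eq, Finset.prod_mul_distrib, map_prod, Finsupp.prod_fintype _ _ (by simp)]
    rfl
  simp_rw [h2, coeff_monomial]
  rw [Finset.sum_eq_single (fun s => d s)]
  · rw [if_pos]
    ext s
    rfl
  · intro p _ hp
    rw [if_neg]
    intro h
    apply hp
    rw [← h]
    rfl
  · intro h
    exfalso
    apply h
    rw [Fintype.mem_piFinset]
    intro s
    rw [mem_range]
    exact (hN s).2

/-- The polynomial of the row of a single point. -/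
noncomputable def Qs (T : Fil m k) (s : Fin k) : Polynomial (PP m) :=
  ∏ x : Fin m × Bool with T.row x.1 = T.qrow s, (Polynomial.X - Polynomial.C (X x))

theorem card_row (T : Fil m k) (r : ℕ) : #{i | T.row i = r} = T.ν r := by
  classical
  rw [← Finset.card_range (T.ν r)]
  refine Finset.card_bij (fun i _ => T.dom i) ?_ ?_ ?_
  · intro i hi
    rw [mem_filter] at hi
    rw [mem_range]
    exact (T.full r _).1 ⟨i, hi.2, rfl⟩
  · intro i hi i' hi' h
    rw [mem_filter] at hi hi'
    by_contra hne
    rcases lt_or_gt_of_ne hne with hlt | hlt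
    · rcases (T.lex _ _).1 hlt with h1 | h1
      · omega
      · omega
    · rcases (T.lex _ _).1 hlt with h1 | h1
      · omega
      · omega
  · intro j hj
    rw [mem_range] at hj
    obtain ⟨i, h1, h2⟩ := (T.full r j).2 hj
    exact ⟨i, by rw [mem_filter]; exact ⟨mem_univ _, h1⟩, h2⟩

theorem natDegree_Qs (T : Fil m k) (s : Fin k) : (Qs T s).natDegree = 2 * T.ν (T.qrow s) := by
  classical
  unfold Qs
  rw [Polynomial.natDegree_prod_of_monic _ _ fun x _ => Polynomial.monic_X_sub_C _]
  simp only [Polynomial.natDegree_X_sub_C, Finset.sum_const, smul_eq_mul, mul_one]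
  have : ({x : Fin m × Bool | T.row x.1 = T.qrow s} : Finset _) =
      ({i | T.row i = T.qrow s} : Finset (Fin m)) ×ˢ (univ : Finset Bool) := by
    ext x
    simp
  rw [this, Finset.card_product, card_row]
  simp [mul_comm]

theorem monic_Qs (T : Fil m k) (s : Fin k) : (Qs T s).Monic := by
  unfold Qs
  exact Polynomial.monic_prod_of_monic _ _ fun x _ => Polynomial.monic_X_sub_C _

theorem dom_lt (T : Fil m k) (i : Fin m) : T.dom i < T.ν (T.row i) :=
  (T.full _ _).1 ⟨i, rfl, rfl⟩

theorem theta_Dlt (T : Fil m k) :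
    theta m k (Dlt T.prow T.pcol) =
      C T.D0 * ∏ s, Polynomial.aeval (X s : MvPolynomial (Fin k) (PP m)) (Qs T s) := by
  classical
  unfold Dlt
  rw [map_prod, Fintype.prod_sum_type]
  have h1 : ∀ s : Fin k, theta m k (∏ y : Pt m k with T.prow y = T.prow (Sum.inr s) ∧
      T.pcol (Sum.inr s) < T.pcol y, (X y - X (Sum.inr s))) = 1 := by
    intro s
    rw [Finset.filter_false_of_mem, Finset.prod_empty, map_one]
    rintro (y | s') - ⟨h, h'⟩
    · simp only [Fil.prow, Fil.pcol] at h h'
      have := dom_lt T y.1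
      have hb : y.2.toNat ≤ 1 := Bool.toNat_le y.2
      rw [h] at this
      omega
    · simp only [Fil.prow, Fil.pcol] at h h'
      rw [h] at h'
      exact lt_irrefl _ h'
  rw [Finset.prod_congr rfl fun s _ => h1 s, Finset.prod_const_one, mul_one]
  have h2 : ∀ x : Fin m × Bool, theta m k (∏ y : Pt m k with T.prow y = T.prow (Sum.inl x) ∧
      T.pcol (Sum.inl x) < T.pcol y, (X y - X (Sum.inl x))) =
      C (∏ y : Fin m × Bool with T.row y.1 = T.row x.1 ∧
        2 * T.dom x.1 + x.2.toNat < 2 * T.dom y.1 + y.2.toNat, (X y - X x)) *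
      ∏ s, (if T.row x.1 = T.qrow s then (X s - C (X x)) else 1) := by
    intro x
    rw [Finset.prod_filter, map_prod, Fintype.prod_sum_type, Finset.prod_filter, map_prod]
    congr 1
    · refine Finset.prod_congr rfl fun y _ => ?_
      have hiff : (T.prow (Sum.inl y) = T.prow (Sum.inl x) ∧
          T.pcol (Sum.inl x) < T.pcol (Sum.inl y)) ↔ (T.row y.1 = T.row x.1 ∧
        2 * T.dom x.1 + x.2.toNat < 2 * T.dom y.1 + y.2.toNat) := Iff.rfl
      by_cases h : T.row y.1 = T.row x.1 ∧
        2 * T.dom x.1 + x.2.toNat < 2 * T.dom y.1 + y.2.toNat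
      · rw [if_pos (hiff.2 h), if_pos h]
        simp [theta]
      · rw [if_neg (fun h' => h (hiff.1 h')), if_neg h, map_one, map_one]
    · refine Finset.prod_congr rfl fun s _ => ?_
      have : (T.prow (Sum.inr s) = T.prow (Sum.inl x) ∧
          T.pcol (Sum.inl x) < T.pcol (Sum.inr s)) ↔ T.row x.1 = T.qrow s := by
        simp only [Fil.prow, Fil.pcol]
        constructor
        · rintro ⟨h, -⟩
          exact h.symm
        · intro h
          refine ⟨h.symm, ?_⟩
          have h1 := dom_lt T x.1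
          have hb : x.2.toNat ≤ 1 := Bool.toNat_le x.2
          rw [← h]
          omega
      by_cases hx : T.row x.1 = T.qrow s
      · rw [if_pos (this.2 hx), if_pos hx]
        simp [theta]
      · rw [if_neg (fun h => hx (this.1 h)), if_neg hx, map_one]
  rw [Finset.prod_congr rfl fun x _ => h2 x, Finset.prod_mul_distrib, ← map_prod]
  congr 1
  rw [Finset.prod_comm]
  refine Finset.prod_congr rfl fun s _ => ?_
  unfold Qs
  rw [map_prod, Finset.prod_filter]
  refine Finset.prod_congr rfl fun x _ => ?_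
  split_ifs
  · simp
  · rfl

/-- The exponents. -/
noncomputable def ex (T : Fil m k) : Fin k →₀ ℕ :=
  Finsupp.equivFunOnFinite.symm fun s => 2 * T.ν (T.qrow s)

/-- The permuted exponents. -/
noncomputable def exb (T : Fil m k) (b : Perm (Fin k)) : Fin k →₀ ℕ :=
  Finsupp.equivFunOnFinite.symm fun s => ex T (b s)

theorem mapDomain_exb (T : Fil m k) (b : Perm (Fin k)) :
    (exb T b).mapDomain b = ex T := by
  ext s
  obtain ⟨s', rfl⟩ := b.surjective s
  rw [Finsupp.mapDomain_apply b.injective]
  rfl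

open Classical in
theorem coeff_theta_Dlt (T : Fil m k) (b : Perm (Fin k)) :
    coeff (exb T b) (theta m k (Dlt T.prow T.pcol)) = if exb T b = ex T then T.D0 else 0 := by
  rw [theta_Dlt, coeff_C_mul, coeff_prod_aeval]
  split_ifs with h
  · rw [Finset.prod_eq_one, mul_one]
    intro s _
    rw [h]
    have : ex T s = (Qs T s).natDegree := (natDegree_Qs T s).symm
    rw [this]
    exact monic_Qs T s
  · obtain ⟨s, hs⟩ : ∃ s, ex T s < exb T b s := by
      by_contra hcon
      push Not at hcon
      apply h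
      have hsum : ∑ s, exb T b s = ∑ s, ex T s := Equiv.sum_comp b (ex T)
      ext s
      exact (Finset.sum_eq_sum_iff_of_le fun s _ => hcon s).1 hsum s (mem_univ s)
    rw [Finset.prod_eq_zero (mem_univ s), mul_zero]
    apply Polynomial.coeff_eq_zero_of_natDegree_lt
    rw [natDegree_Qs]
    exact hs

/-- The coefficient of the monomial of the single points. -/
noncomputable def Psi (T : Fil m k) : MvPolynomial (Pt m k) ℚ →ₗ[ℚ] PP m :=
  ((lcoeff (PP m) (ex T)).restrictScalars ℚ) ∘ₗ (theta m k).toLinearMap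

theorem Psi_apply (T : Fil m k) (f : MvPolynomial (Pt m k) ℚ) :
    Psi T f = coeff (ex T) (theta m k f) := rfl

theorem Psi_rename (T : Fil m k) (a : Perm (Fin m × Bool)) (b : Perm (Fin k))
    (f : MvPolynomial (Pt m k) ℚ) :
    Psi T (rename (iot a b) f) = rename a (coeff (exb T b) (theta m k f)) := by
  rw [Psi_apply, theta_rename, ← mapDomain_exb T b, coeff_rename_mapDomain _ b.injective,
    coeff_map]
  rfl

theorem exb_one (T : Fil m k) : exb T 1 = ex T := by
  ext s
  rfl

theorem Psi_equiv (T : Fil m k) (a : Perm (Fin m × Bool)) (f : MvPolynomial (Pt m k) ℚ) :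
    Psi T (pol (Pt m k) (iot a 1) f) = pol (Fin m × Bool) a (Psi T f) := by
  have h : pol (Pt m k) (iot a 1) f = ((Perm.sign a : ℤˣ) : ℤ) • rename (iot a 1) f := by
    show ((Perm.sign (iot a 1) : ℤˣ) : ℤ) • rename (iot a 1) f = _
    rw [Equiv.Perm.sign_sumCongr, Perm.sign_one, mul_one]
  rw [h, map_zsmul, Psi_rename, exb_one]
  rfl

theorem Psi_pol_Dlt (T : Fil m k) (a : Perm (Fin m × Bool)) (b : Perm (Fin k)) :
    (sg b : ℤ) • Psi T (pol (Pt m k) (iot a b) (Dlt T.prow T.pcol)) =
      open Classical in if exb T b = ex T then pol (Fin m × Bool) a T.D0 else 0 := by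
  classical
  have h : pol (Pt m k) (iot a b) (Dlt T.prow T.pcol) =
      (((Perm.sign a : ℤˣ) : ℤ) * ((Perm.sign b : ℤˣ) : ℤ)) •
        rename (iot a b) (Dlt T.prow T.pcol) := by
    show ((Perm.sign (iot a b) : ℤˣ) : ℤ) • rename (iot a b) _ = _
    rw [Equiv.Perm.sign_sumCongr]
    rfl
  rw [h, map_zsmul, Psi_rename, coeff_theta_Dlt, smul_smul]
  have h2 : (sg b : ℤ) * (((Perm.sign a : ℤˣ) : ℤ) * ((Perm.sign b : ℤˣ) : ℤ)) =
      ((Perm.sign a : ℤˣ) : ℤ) := by
    have : ((Perm.sign b : ℤˣ) : ℤ) * ((Perm.sign b : ℤˣ) : ℤ) = 1 := by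
      rw [← Units.val_mul, Int.units_mul_self]
      rfl
    unfold sg
    linear_combination ((Perm.sign a : ℤˣ) : ℤ) * this
  rw [h2]
  split_ifs
  · rfl
  · rw [map_zero, smul_zero]

theorem sum_v0 {U : Type} [AddCommGroup U] [Module ℚ U] (Φ : Perm (Pt m k) → U) :
    ∑ g : Perm (Pt m k), v0 ℚ m k g • Φ g =
      open Classical in ∑ a : Perm (Fin m × Bool) with wr a, ∑ b : Perm (Fin k),
        (sg b : ℤ) • Φ (iot a b) := by
  classical
  unfold v0
  simp_rw [Finset.sum_smul]
  rw [Finset.sum_comm, Finset.sum_filter]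
  refine Finset.sum_congr rfl fun a _ => ?_
  rw [Finset.sum_comm]
  by_cases ha : wr a
  · rw [if_pos ha]
    refine Finset.sum_congr rfl fun b _ => ?_
    rw [Finset.sum_eq_single (iot a b)]
    · rw [if_pos ⟨ha, rfl⟩, Int.cast_smul_eq_zsmul]
    · intro g _ hg
      rw [if_neg (fun h => hg h.2), zero_smul]
    · intro h
      exact absurd (mem_univ _) h
  · rw [if_neg ha]
    refine Finset.sum_eq_zero fun b _ => Finset.sum_eq_zero fun g _ => ?_
    rw [if_neg (fun h => ha h.1), zero_smul]

theorem t_PSI : C_PSI := by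
  classical
  intro m k T
  refine ⟨Psi T, Psi_equiv T, ((#{b : Perm (Fin k) | exb T b = ex T} : ℕ) : ℚ), ?_, ?_⟩
  · rw [Nat.cast_ne_zero, ← Nat.pos_iff_ne_zero, Finset.card_pos]
    exact ⟨1, by rw [mem_filter]; exact ⟨mem_univ _, exb_one T⟩⟩
  · rw [map_sum]
    simp_rw [map_smul]
    rw [sum_v0 fun g => Psi T (pol (Pt m k) g (Dlt T.prow T.pcol))]
    unfold Fil.w0
    rw [Finset.smul_sum]
    refine Finset.sum_congr (by congr) fun a _ => ?_
    rw [Finset.sum_congr rfl fun b _ => Psi_pol_Dlt T a b, ← Finset.sum_filter,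
      Finset.sum_const, Nat.cast_smul_eq_nsmul]

end Pool.Agent.H30.TF
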